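import Pool.Agent.H6.RegB

namespace Pool.Agent.Results.MP_88c4e5_co.Q2

open Pool.Agent.H6.Reg

/-- Q2: no nontrivial quasi-identity holds in `DM(H,B)` for all central arrangements in all
dimensions, while for each fixed `d ≥ 1` some nontrivial quasi-identity holds in `DM(H,B)` for all
central arrangements in `ℝ^d`. -/
theorem result.{u} :
    (¬ ∃ φ : QI, QI.Nontrivial.{u} φ ∧
      ∀ d : ℕ, 1 ≤ d → ∀ (A : Arr d) (B : A.Region), φ.Holds (A.DM B)) ∧
    (∀ d : ℕ, 1 ≤ d → ∃ φ : QI, QI.Nontrivial.{u} φ ∧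
      ∀ (A : Arr d) (B : A.Region), φ.Holds (A.DM B)) := by
  refine ⟨?_, fun d _ => ⟨qi d, qi_nontrivial d, qi_holds⟩⟩
  rintro ⟨φ, h1, h2⟩
  obtain ⟨d, hd, A, B, h⟩ := no_qi φ h1
  exact h (h2 d hd A B)

end Pool.Agent.Results.MP_88c4e5_co.Q2
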